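import Pool.Agent.helper62.LL.SpecG
import Pool.Agent.helper62.EN.XFL
import Pool.Agent.helper72.EN.XTX
import Mathlib

set_option autoImplicit false

open scoped MatrixGroups ContDiff Topology UpperHalfPlane
open UpperHalfPlane MeasureTheory Filter Set

namespace Pool.Agent.LL

open Pool.Agent.EN (XG MG mkX mkM fl pr)

theorem WGT_val : ∫ s : ℝ, Real.exp (-(2 * |s|)) = 1 := by
  have h := integral_comp_abs (f := fun s : ℝ => Real.exp (-(2 * s)))
  have h2 : (∫ x in Ioi (0 : ℝ), Real.exp (-(2 * x))) = 1 / 2 := by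
    have h3 := integral_exp_mul_Ioi (a := (-2 : ℝ)) (by norm_num) 0
    have h4 : (∫ x in Ioi (0 : ℝ), Real.exp (-(2 * x))) = ∫ x in Ioi (0 : ℝ), Real.exp (-2 * x) := by
      refine integral_congr_ae (Eventually.of_forall fun x => ?_)
      show Real.exp (-(2 * x)) = Real.exp (-2 * x)
      congr 1
      ring
    rw [h4, h3]
    norm_num
  rw [h2] at h
  rw [h]
  norm_num

theorem WGT_int : Integrable (fun s : ℝ => Real.exp (-(2 * |s|))) := by
  by_contra h
  have := integral_undef h
  rw [WGT_val] at this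
  norm_num at this

section abs

variable {X : Type} [MeasurableSpace X] {f : ℝ → X → X}

/-- the weight -/
noncomputable def WGT_w (f : ℝ → X → X) (G : Set X) (x : X) : ℝ :=
  ∫ s : ℝ, Real.exp (-(2 * |s|)) * G.indicator (fun _ => (1 : ℝ)) (f s x)

theorem WGT_ind (G : Set X) (y : X) : 0 ≤ G.indicator (fun _ => (1 : ℝ)) y ∧ G.indicator (fun _ => (1 : ℝ)) y ≤ 1 := by
  by_cases hy : y ∈ G
  · rw [indicator_of_mem hy]
    exact ⟨zero_le_one, le_rfl⟩
  · rw [indicator_of_notMem hy]
    exact ⟨le_rfl, zero_le_one⟩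

theorem WGT_meas2 (hf : Measurable fun q : ℝ × X => f q.1 q.2) {G : Set X} (hG : MeasurableSet G) :
    Measurable fun q : X × ℝ => Real.exp (-(2 * |q.2|)) * G.indicator (fun _ => (1 : ℝ)) (f q.2 q.1) := by
  have h1 : Measurable fun q : X × ℝ => f q.2 q.1 := hf.comp measurable_swap
  have h2 : Measurable (G.indicator (fun _ => (1 : ℝ))) := measurable_const.indicator hG
  have h3 : Measurable fun q : X × ℝ => Real.exp (-(2 * |q.2|)) := by
    have : Continuous fun s : ℝ => Real.exp (-(2 * |s|)) := by fun_prop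
    exact this.measurable.comp measurable_snd
  exact h3.mul (h2.comp h1)

theorem WGT_meas (hf : Measurable fun q : ℝ × X => f q.1 q.2) {G : Set X} (hG : MeasurableSet G) :
    Measurable (WGT_w f G) := by
  have h := (WGT_meas2 hf hG).stronglyMeasurable
  exact (h.integral_prod_right (ν := (volume : Measure ℝ))).measurable

theorem WGT_intx (hf : Measurable fun q : ℝ × X => f q.1 q.2) {G : Set X} (hG : MeasurableSet G) (x : X) :
    Integrable (fun s : ℝ => Real.exp (-(2 * |s|)) * G.indicator (fun _ => (1 : ℝ)) (f s x)) := by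
  have h := (WGT_meas2 hf hG).comp (measurable_const.prodMk measurable_id : Measurable fun s : ℝ => (x, s))
  refine WGT_int.mono' h.aestronglyMeasurable (Eventually.of_forall fun s => ?_)
  have hi := WGT_ind G (f s x)
  show ‖Real.exp (-(2 * |s|)) * G.indicator (fun _ => (1 : ℝ)) (f s x)‖ ≤ _
  rw [Real.norm_eq_abs, abs_of_nonneg (mul_nonneg (Real.exp_pos _).le hi.1)]
  exact mul_le_of_le_one_right (Real.exp_pos _).le hi.2

theorem WGT_nn (G : Set X) (x : X) : 0 ≤ WGT_w f G x :=
  integral_nonneg fun s => mul_nonneg (Real.exp_pos _).le (WGT_ind G (f s x)).1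

theorem WGT_le1 (hf : Measurable fun q : ℝ × X => f q.1 q.2) {G : Set X} (hG : MeasurableSet G) (x : X) :
    WGT_w f G x ≤ 1 := by
  have h := integral_mono (WGT_intx hf hG x) WGT_int (fun s => mul_le_of_le_one_right (Real.exp_pos _).le (WGT_ind G (f s x)).2)
  rw [WGT_val] at h
  exact h

theorem WGT_flow (hf : Measurable fun q : ℝ × X => f q.1 q.2) (hadd : ∀ s t x, f (s + t) x = f s (f t x))
    {G : Set X} (hG : MeasurableSet G) (t : ℝ) (x : X) :
    WGT_w f G (f t x) ≤ Real.exp (2 * |t|) * WGT_w f G x := by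
  have h1 : WGT_w f G (f t x) = ∫ s : ℝ, Real.exp (-(2 * |s - t|)) * G.indicator (fun _ => (1 : ℝ)) (f s x) := by
    have h2 := integral_add_right_eq_self (μ := (volume : Measure ℝ))
      (fun s : ℝ => Real.exp (-(2 * |s - t|)) * G.indicator (fun _ => (1 : ℝ)) (f s x)) t
    rw [← h2]
    refine integral_congr_ae (Eventually.of_forall fun s => ?_)
    show Real.exp (-(2 * |s|)) * G.indicator (fun _ => (1 : ℝ)) (f s (f t x)) =
      Real.exp (-(2 * |s + t - t|)) * G.indicator (fun _ => (1 : ℝ)) (f (s + t) x)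
    rw [add_sub_cancel_right, hadd]
  rw [h1, WGT_w, ← integral_const_mul]
  have hmeas : Measurable fun s : ℝ => Real.exp (-(2 * |s - t|)) * G.indicator (fun _ => (1 : ℝ)) (f s x) := by
    have h3 : Measurable fun s : ℝ => f s x :=
      hf.comp (measurable_id.prodMk measurable_const : Measurable fun s : ℝ => (s, x))
    have h4 : Measurable fun s : ℝ => Real.exp (-(2 * |s - t|)) := by
      have : Continuous fun s : ℝ => Real.exp (-(2 * |s - t|)) := by fun_prop
      exact this.measurable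
    exact h4.mul ((measurable_const.indicator hG).comp h3)
  have hle : ∀ s : ℝ, Real.exp (-(2 * |s - t|)) * G.indicator (fun _ => (1 : ℝ)) (f s x) ≤
      Real.exp (2 * |t|) * (Real.exp (-(2 * |s|)) * G.indicator (fun _ => (1 : ℝ)) (f s x)) := by
    intro s
    rw [← mul_assoc, ← Real.exp_add]
    refine mul_le_mul_of_nonneg_right (Real.exp_le_exp.2 ?_) (WGT_ind G (f s x)).1
    have := abs_sub_abs_le_abs_sub s t
    linarith
  refine integral_mono_of_nonneg (Eventually.of_forall fun s => mul_nonneg (Real.exp_pos _).le (WGT_ind G (f s x)).1)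
    ((WGT_intx hf hG x).const_mul _) (Eventually.of_forall hle)

theorem WGT_null (hf : Measurable fun q : ℝ × X => f q.1 q.2) (h0 : ∀ x, f 0 x = x) (hadd : ∀ s t x, f (s + t) x = f s (f t x))
    (μ : Measure X) [IsProbabilityMeasure μ] (hμ : ∀ t, μ.map (f t) = μ)
    {G : Set X} (hG : MeasurableSet G) : μ (G ∩ {x | WGT_w f G x = 0}) = 0 := by
  have hft : ∀ t, Measurable (f t) := fun t =>
    hf.comp (measurable_const.prodMk measurable_id : Measurable fun x : X => (t, x))
  set Z : Set X := {x | WGT_w f G x = 0} with hZ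
  have hZm : MeasurableSet Z := WGT_meas hf hG (measurableSet_singleton 0)
  have hle : ∀ t x, WGT_w f G x = 0 → WGT_w f G (f t x) = 0 := by
    intro t x hx
    have h1 := WGT_flow hf hadd hG t x
    rw [hx, mul_zero] at h1
    exact le_antisymm h1 (WGT_nn G _)
  have hinv : ∀ t x, f t x ∈ Z ↔ x ∈ Z := by
    intro t x
    constructor
    · intro hx
      have h1 := hle (-t) (f t x) hx
      rw [← hadd, neg_add_cancel, h0] at h1
      exact h1
    · exact hle t x
  -- for every `s` the measure of `Z ∩ f s ⁻¹' G` is `μ (G ∩ Z)`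
  have hms : ∀ s, μ (f s ⁻¹' (G ∩ Z)) = μ (G ∩ Z) := by
    intro s
    rw [← Measure.map_apply (hft s) (hG.inter hZm), hμ]
  -- Tonelli
  have hA : ∫⁻ x in Z, (∫⁻ s : ℝ, ENNReal.ofReal (Real.exp (-(2 * |s|)) * G.indicator (fun _ => (1 : ℝ)) (f s x))) ∂μ = 0 := by
    rw [lintegral_eq_zero_iff]
    · rw [EventuallyEq, ae_restrict_iff' hZm]
      refine Eventually.of_forall fun x hx => ?_
      show (∫⁻ s : ℝ, ENNReal.ofReal (Real.exp (-(2 * |s|)) * G.indicator (fun _ => (1 : ℝ)) (f s x))) = 0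
      rw [← ofReal_integral_eq_lintegral_ofReal (WGT_intx hf hG x)
        (Eventually.of_forall fun s => mul_nonneg (Real.exp_pos _).le (WGT_ind G (f s x)).1)]
      have : WGT_w f G x = 0 := hx
      rw [WGT_w] at this
      rw [this, ENNReal.ofReal_zero]
    · exact Measurable.lintegral_prod_right (WGT_meas2 hf hG).ennreal_ofReal
  rw [lintegral_lintegral_swap (WGT_meas2 hf hG).ennreal_ofReal.aemeasurable] at hA
  have hB : ∀ s : ℝ, ∫⁻ x in Z, ENNReal.ofReal (Real.exp (-(2 * |s|)) * G.indicator (fun _ => (1 : ℝ)) (f s x)) ∂μ =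
      ENNReal.ofReal (Real.exp (-(2 * |s|))) * μ (G ∩ Z) := by
    intro s
    have h1 : ∀ x, ENNReal.ofReal (Real.exp (-(2 * |s|)) * G.indicator (fun _ => (1 : ℝ)) (f s x)) =
        ENNReal.ofReal (Real.exp (-(2 * |s|))) * (f s ⁻¹' G).indicator (fun _ => (1 : ENNReal)) x := by
      intro x
      rw [ENNReal.ofReal_mul (Real.exp_pos _).le]
      congr 1
      by_cases hx : f s x ∈ G
      · rw [indicator_of_mem hx, indicator_of_mem (show x ∈ f s ⁻¹' G from hx), ENNReal.ofReal_one]
      · rw [indicator_of_notMem hx, indicator_of_notMem (show x ∉ f s ⁻¹' G from hx), ENNReal.ofReal_zero]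
    simp_rw [h1]
    rw [lintegral_const_mul _ (measurable_const.indicator (hft s hG)), lintegral_indicator (hft s hG)]
    simp only [lintegral_const, one_mul, Measure.restrict_apply MeasurableSet.univ, univ_inter]
    rw [Measure.restrict_apply (hft s hG), ← hms s]
    congr 2
    ext x
    constructor
    · rintro ⟨h2, h3⟩
      exact ⟨h2, (hinv s x).2 h3⟩
    · rintro ⟨h2, h3⟩
      exact ⟨h2, (hinv s x).1 h3⟩
  simp_rw [hB] at hA
  rw [lintegral_mul_const _ (by
    have : Continuous fun s : ℝ => Real.exp (-(2 * |s|)) := by fun_prop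
    exact this.measurable.ennreal_ofReal)] at hA
  rcases mul_eq_zero.1 hA with h | h
  · exfalso
    rw [← ofReal_integral_eq_lintegral_ofReal WGT_int (Eventually.of_forall fun s => (Real.exp_pos _).le), WGT_val] at h
    simp at h
  · exact h

theorem WGT_ac (hf : Measurable fun q : ℝ × X => f q.1 q.2) (h0 : ∀ x, f 0 x = x) (hadd : ∀ s t x, f (s + t) x = f s (f t x))
    (μ : Measure X) [IsProbabilityMeasure μ] (hμ : ∀ t, μ.map (f t) = μ)
    {G : Set X} (hG : MeasurableSet G) (E : Set X) (hE : MeasurableSet E)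
    (h : μ.withDensity (fun x => ENNReal.ofReal (WGT_w f G x)) E = 0) : μ (G ∩ E) = 0 := by
  have hm : Measurable (WGT_w f G) := WGT_meas hf hG
  rw [withDensity_apply _ hE, lintegral_eq_zero_iff hm.ennreal_ofReal, EventuallyEq, ae_restrict_iff' hE] at h
  have h1 : μ {x | x ∈ E ∧ WGT_w f G x ≠ 0} = 0 := by
    refine measure_mono_null (fun x hx => ?_) (ae_iff.1 h)
    rcases hx with ⟨hx1, hx2⟩
    show ¬ (x ∈ E → ENNReal.ofReal (WGT_w f G x) = (0 : X → ENNReal) x)
    intro h3
    have h4 := h3 hx1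
    rw [Pi.zero_apply, ENNReal.ofReal_eq_zero] at h4
    exact hx2 (le_antisymm h4 (WGT_nn G x))
  have h2 := WGT_null hf h0 hadd μ hμ hG
  refine measure_mono_null (fun x hx => ?_) (measure_union_null h1 h2)
  by_cases hw : WGT_w f G x = 0
  · exact Or.inr ⟨hx.1, hw⟩
  · exact Or.inl ⟨hx.2, hw⟩

end abs

theorem WGT_proof : WGT_stmt := by
  intro Γ μ 𝒢 hΓ hprob hμ h𝒢
  haveI := hprob
  obtain ⟨hflow, -⟩ := EN.XFL_proof Γ
  obtain ⟨hc, ht2, hsc⟩ := EN.XTX_proof EN.XFL_proof Γ hΓ
  haveI := hsc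
  have hf : Measurable fun q : ℝ × XG Γ => fl Γ q.1 q.2 := hflow.cont.measurable
  refine ⟨WGT_meas hf h𝒢, fun x => ⟨WGT_nn 𝒢 x, WGT_le1 hf h𝒢 x⟩, fun t x => WGT_flow hf hflow.add h𝒢 t x, ?_⟩
  intro E' hE' h
  exact WGT_ac hf hflow.zero hflow.add μ hμ h𝒢 E' hE' h

end Pool.Agent.LL
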